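import Pool.Agent.H8.AV3.Stmts4

/-!
# NTE: the number of normal forms with a given Jacobian
-/

set_option autoImplicit false

namespace Pool.Agent.H52.AV3B

open Polynomial Matrix Pool.AVR Pool.AV3

theorem nte_aux {R : Type} [CommRing R] (A u E F G η τ x y a b c : R) (hτ : 2 * τ = 1)
    (ha : E + 3 * η = a) (hx : x = u ^ 2 - E - η) (hAF : A * F * τ = y + u * E - u ^ 3)
    (hG : A ^ 2 * G = A * u * F + 2 * E * η + 3 * η ^ 2 - b)
    (h : y ^ 2 = x ^ 3 + a * x ^ 2 + b * x + c) :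
    A ^ 2 * F ^ 2 * τ ^ 2 + (A * u) ^ 2 * G - A ^ 2 * E * G + ((A * u) * F - A ^ 2 * G) * η +
      E * η ^ 2 + η ^ 3 = c := by
  subst ha hx
  linear_combination (u ^ 2 - E - η) * hG +
    (A * F * τ + (y + u * E - u ^ 3) + 2 * u * (u ^ 2 - E)) * hAF -
    u * (u ^ 2 - E) * A * F * hτ + h

/-- The forms with `A` a unit. -/
theorem nte_unit {R : Type} [CommRing R] [Finite R] (τ : R) (hτ : 2 * τ = 1) (f : R × R × R) :
    {p : R × R × R × R × R × R | IsUnit p.1 ∧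
      sh p.2.2.2.2.2 (fsg τ p.1 p.2.1 p.2.2.1 p.2.2.2.1 p.2.2.2.2.1) = f}.ncard =
      {x : R | IsUnit x}.ncard * Nat.card R * nET f := by
  have hT : ({x : R | IsUnit x} ×ˢ ((Set.univ : Set R) ×ˢ
      {q : R × R | q.2 ^ 2 = q.1 ^ 3 + f.1 * q.1 ^ 2 + f.2.1 * q.1 + f.2.2})).ncard =
      {x : R | IsUnit x}.ncard * Nat.card R * nET f := by
    rw [Set.ncard_prod, Set.ncard_prod, Set.ncard_univ]
    unfold nET AVS.nE
    ring
  rw [← hT]
  obtain ⟨a, b, c⟩ := f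
  refine Set.ncard_congr (fun p _ => (p.1, p.2.1,
    (-p.2.2.1 - p.2.2.2.2.2 + (p.2.1 * Ring.inverse p.1) ^ 2,
      τ * p.1 * p.2.2.2.1 - (p.2.1 * Ring.inverse p.1) * p.2.2.1 +
        (p.2.1 * Ring.inverse p.1) ^ 3))) ?_ ?_ ?_
  · rintro ⟨A, D, E, F, G, η⟩ ⟨hA, h⟩
    simp only [sh, fsg, Prod.mk.injEq] at h hA
    obtain ⟨h1, h2, h3⟩ := h
    have hAi : A * Ring.inverse A = 1 := Ring.mul_inverse_cancel A hA
    have hD : D = A * (D * Ring.inverse A) := by linear_combination -D * hAi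
    refine ⟨hA, Set.mem_univ _, ?_⟩
    simp only [Set.mem_ofPred_eq]
    rw [← h1, ← h2, ← h3]
    generalize D * Ring.inverse A = u at hD
    subst hD
    linear_combination A * u * F * (u ^ 2 - E) * hτ
  · rintro ⟨A, D, E, F, G, η⟩ ⟨A', D', E', F', G', η'⟩ ⟨hA, h⟩ ⟨hA', h'⟩ he
    simp only [sh, fsg, Prod.mk.injEq] at h h' hA hA' he
    obtain ⟨h1, h2, h3⟩ := h
    obtain ⟨h1', h2', h3'⟩ := h'
    obtain ⟨rfl, rfl, h4, h5⟩ := he
    have hAi : A * Ring.inverse A = 1 := Ring.mul_inverse_cancel A hA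
    generalize Ring.inverse A = i at hAi h4 h5
    have hη : η = η' := by
      linear_combination τ * (h4 + h1 - h1') - (η - η') * hτ
    subst hη
    have hE : E = E' := by linear_combination h1 - h1'
    subst hE
    have hF : F = F' := by
      linear_combination 2 * i * h5 - 2 * τ * (F - F') * hAi - (F - F') * hτ
    subst hF
    have hG : G = G' := by
      linear_combination -i ^ 2 * (h2 - h2') - (G - G') * (A * i + 1) * hAi
    subst hG
    rfl
  · rintro ⟨A, D, x, y⟩ ⟨hA, _, h⟩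
    simp only [Set.mem_ofPred_eq] at h hA
    have hAi : A * Ring.inverse A = 1 := Ring.mul_inverse_cancel A hA
    have hD : D = A * (D * Ring.inverse A) := by linear_combination -D * hAi
    obtain ⟨u, hu⟩ : ∃ u, u = D * Ring.inverse A := ⟨_, rfl⟩
    obtain ⟨i, hi⟩ : ∃ i, i = Ring.inverse A := ⟨_, rfl⟩
    rw [← hu] at hD
    rw [← hi] at hAi
    obtain ⟨η, hη⟩ : ∃ η, η = τ * (x + a - u ^ 2) := ⟨_, rfl⟩
    obtain ⟨E, hE⟩ : ∃ E, E = a - 3 * η := ⟨_, rfl⟩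
    obtain ⟨F, hF⟩ : ∃ F, F = 2 * i * (y + u * E - u ^ 3) := ⟨_, rfl⟩
    obtain ⟨G, hG⟩ : ∃ G, G = i ^ 2 * (A * u * F + 2 * E * η + 3 * η ^ 2 - b) := ⟨_, rfl⟩
    have hx : x = u ^ 2 - E - η := by
      linear_combination -2 * hη + hE - (x + a - u ^ 2) * hτ
    have hAF : A * F * τ = y + u * E - u ^ 3 := by
      linear_combination A * τ * hF + 2 * τ * (y + u * E - u ^ 3) * hAi +
        (y + u * E - u ^ 3) * hτ
    have hG' : A ^ 2 * G = A * u * F + 2 * E * η + 3 * η ^ 2 - b := by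
      linear_combination A ^ 2 * hG +
        (A * i + 1) * (A * u * F + 2 * E * η + 3 * η ^ 2 - b) * hAi
    have ha : E + 3 * η = a := by linear_combination hE
    have h3 := nte_aux A u E F G η τ x y a b c hτ ha hx hAF hG' h
    refine ⟨(A, D, E, F, G, η), ⟨hA, ?_⟩, ?_⟩
    · simp only [sh, fsg, Prod.mk.injEq]
      rw [hD]
      refine ⟨ha, ?_, ?_⟩
      · linear_combination -hG'
      · linear_combination h3
    · simp only [Prod.mk.injEq, true_and]
      rw [← hu]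
      refine ⟨?_, ?_⟩
      · linear_combination -hx
      · linear_combination hAF

/-- The forms with `A` not a unit and `D` a unit. -/
theorem nte_nonunit (hREG : REGStmt) {R k : Type} [CommRing R] [Field k] (φ : R →+* k) (τ : R)
    (hR : Res φ τ) (f : R × R × R) :
    {p : R × R × R × R × R × R | (¬ IsUnit p.1 ∧ IsUnit p.2.1) ∧
      sh p.2.2.2.2.2 (fsg τ p.1 p.2.1 p.2.2.1 p.2.2.2.1 p.2.2.2.2.1) = f}.ncard * Nat.card k =
      {x : R | IsUnit x}.ncard * Nat.card R * Nat.card R := by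
  obtain ⟨_, hk, hu, hfib, _⟩ := hREG R k φ τ hR
  have := hR.fin
  have hn : {x : R | ¬ IsUnit x}.ncard * Nat.card k = Nat.card R := by
    rw [← hfib 0]
    congr 2
    ext x
    simp [hu x]
  have hT : ({x : R | ¬ IsUnit x} ×ˢ ({x : R | IsUnit x} ×ˢ (Set.univ : Set R))).ncard *
      Nat.card k = {x : R | IsUnit x}.ncard * Nat.card R * Nat.card R := by
    rw [Set.ncard_prod, Set.ncard_prod, Set.ncard_univ]
    linear_combination {x : R | IsUnit x}.ncard * Nat.card R * hn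
  rw [← hT]
  congr 1
  obtain ⟨a, b, c⟩ := f
  refine Set.ncard_congr (fun p _ => (p.1, p.2.1, p.2.2.2.2.2)) ?_ ?_ ?_
  · rintro ⟨A, D, E, F, G, η⟩ ⟨⟨hA, hD⟩, h⟩
    exact ⟨hA, hD, Set.mem_univ _⟩
  · rintro ⟨A, D, E, F, G, η⟩ ⟨A', D', E', F', G', η'⟩ ⟨⟨hA, hD⟩, h⟩ ⟨_, h'⟩ he
    simp only [sh, fsg, Prod.mk.injEq] at h h' hA hD he
    obtain ⟨h1, h2, h3⟩ := h
    obtain ⟨h1', h2', h3'⟩ := h'
    obtain ⟨rfl, rfl, rfl⟩ := he
    have hE : E = E' := by linear_combination h1 - h1'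
    subst hE
    have hφA : φ A = 0 := by
      by_contra h0
      exact hA ((hu A).2 h0)
    have hφD : φ D ≠ 0 := (hu D).1 hD
    have hun : IsUnit (D ^ 3 - A ^ 2 * E * D + A ^ 4 * τ ^ 2 * (F + F')) := by
      rw [hu]
      simp [hφA, hφD]
    have hG : G = G' := by
      have : (D ^ 3 - A ^ 2 * E * D + A ^ 4 * τ ^ 2 * (F + F')) * (G - G') = 0 := by
        linear_combination D * (h3 - h3') - (A ^ 2 * τ ^ 2 * (F + F') + D * η) * (h2 - h2')
      have := (hun.mul_right_eq_zero).1 this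
      exact sub_eq_zero.1 this
    subst hG
    have hF : F = F' := by
      have : D * (F - F') = 0 := by linear_combination h2 - h2'
      have := (hD.mul_right_eq_zero).1 this
      exact sub_eq_zero.1 this
    subst hF
    rfl
  · rintro ⟨A, D, η⟩ ⟨hA, hD, _⟩
    simp only [Set.mem_ofPred_eq] at hA hD
    have hφA : φ A = 0 := by
      by_contra h0
      exact hA ((hu A).2 h0)
    have hφD : φ D ≠ 0 := (hu D).1 hD
    have hDi : D * Ring.inverse D = 1 := Ring.mul_inverse_cancel D hD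
    obtain ⟨i, hi⟩ : ∃ i, i = Ring.inverse D := ⟨_, rfl⟩
    rw [← hi] at hDi
    obtain ⟨E, hE⟩ : ∃ E, E = a - 3 * η := ⟨_, rfl⟩
    obtain ⟨b₀, hb⟩ : ∃ b₀, b₀ = b - 2 * E * η - 3 * η ^ 2 := ⟨_, rfl⟩
    obtain ⟨c₀, hc⟩ : ∃ c₀, c₀ = c - b₀ * η - E * η ^ 2 - η ^ 3 := ⟨_, rfl⟩
    have hinj : Function.Injective
        (fun G : R => A ^ 2 * τ ^ 2 * (i * (b₀ + A ^ 2 * G)) ^ 2 + (D ^ 2 - A ^ 2 * E) * G) := by
      intro G G' h
      simp only at h
      have hun : IsUnit (D ^ 2 - A ^ 2 * E +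
          A ^ 4 * τ ^ 2 * i ^ 2 * (2 * b₀ + A ^ 2 * (G + G'))) := by
        rw [hu]
        simp [hφA, hφD]
      have : (D ^ 2 - A ^ 2 * E +
          A ^ 4 * τ ^ 2 * i ^ 2 * (2 * b₀ + A ^ 2 * (G + G'))) * (G - G') = 0 := by
        linear_combination h
      have := (hun.mul_right_eq_zero).1 this
      exact sub_eq_zero.1 this
    obtain ⟨G, hG⟩ := (Finite.surjective_of_injective hinj) c₀
    simp only at hG
    refine ⟨(A, D, E, i * (b₀ + A ^ 2 * G), G, η), ⟨⟨hA, hD⟩, ?_⟩, rfl⟩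
    simp only [sh, fsg, Prod.mk.injEq]
    refine ⟨?_, ?_, ?_⟩
    · linear_combination hE
    · linear_combination (b₀ + A ^ 2 * G) * hDi + hb
    · linear_combination hG + hc + η * (b₀ + A ^ 2 * G) * hDi

/-- NTE. -/
theorem nte_thm (hREG : REGStmt) : NTEStmt := by
  intro R k _ _ φ τ hR f
  have := hR.fin
  have h1 := nte_unit τ hR.half f
  have h2 := nte_nonunit hREG φ τ hR f
  have hs : {p : R × R × R × R × R × R | (IsUnit p.1 ∨ IsUnit p.2.1) ∧
      sh p.2.2.2.2.2 (fsg τ p.1 p.2.1 p.2.2.1 p.2.2.2.1 p.2.2.2.2.1) = f} =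
      {p : R × R × R × R × R × R | IsUnit p.1 ∧
      sh p.2.2.2.2.2 (fsg τ p.1 p.2.1 p.2.2.1 p.2.2.2.1 p.2.2.2.2.1) = f} ∪
      {p : R × R × R × R × R × R | (¬ IsUnit p.1 ∧ IsUnit p.2.1) ∧
      sh p.2.2.2.2.2 (fsg τ p.1 p.2.1 p.2.2.1 p.2.2.2.1 p.2.2.2.2.1) = f} := by
    ext p
    simp only [Set.mem_ofPred_eq, Set.mem_union]
    tauto
  rw [hs, Set.ncard_union_eq, add_mul, h1, h2]
  · ring
  · rw [Set.disjoint_left]
    rintro p ⟨h, _⟩ ⟨⟨h', _⟩, _⟩
    exact h' h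

end Pool.Agent.H52.AV3B
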